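import Pool.Agent.H825Z.BTE.Short
import Pool.Agent.H910Z.TE.Comp

set_option autoImplicit false
set_option linter.unusedSectionVars false
set_option linter.unusedVariables false

/-! # The decision procedure for boundedness on the level set -/

namespace Pool.Agent.H825Z.BTE

open Pool.Agent.Helper156.OF Pool.Agent.H8Z.BTE
open Pool.Agent.H910Z.TE hiding wd cnt

def md (n : ℕ) (l : Wd) : Wd := l.map (fun x => (x.1 % (n + 1), x.2))

lemma md_prim : Primrec₂ md := by
  refine Primrec.list_map Primrec.snd ?_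
  exact Primrec.pair (Primrec.nat_mod.comp (Primrec.fst.comp Primrec.snd)
    (Primrec.succ.comp (Primrec.fst.comp Primrec.fst))) (Primrec.snd.comp Primrec.snd)

def ap (n : ℕ) (θ : List Wd) (l : Wd) : Wd := md n (app θ (md n l))

lemma ap_prim : Primrec (fun p : ℕ × List Wd × Wd => ap p.1 p.2.1 p.2.2) :=
  md_prim.comp Primrec.fst (app_prim.comp (Primrec.fst.comp Primrec.snd)
    (md_prim.comp Primrec.fst (Primrec.snd.comp Primrec.snd)))

def invr (p : ℕ × List Wd × List Wd) : Prop :=
  ∀ i ∈ List.range (p.1 + 1), FreeGroup.reduce (ap p.1 p.2.1 (p.2.2.getD i [])) = [(i, true)]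

lemma invr_prim : PrimrecPred invr := by
  have h1 : PrimrecRel (fun (i : ℕ) (p : ℕ × List Wd × List Wd) =>
      FreeGroup.reduce (ap p.1 p.2.1 (p.2.2.getD i [])) = [(i, true)]) := by
    refine Primrec.eq.comp (reduce_prim.comp (ap_prim.comp (Primrec.pair
      (Primrec.fst.comp Primrec.snd) (Primrec.pair (Primrec.fst.comp (Primrec.snd.comp Primrec.snd))
      ((Primrec.list_getD []).comp (Primrec.snd.comp (Primrec.snd.comp Primrec.snd))
        Primrec.fst))))) ?_
    exact Primrec.list_cons.comp (Primrec.pair Primrec.fst (Primrec.const true)) (Primrec.const [])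
  exact h1.forall_mem_list.comp (Primrec.list_range.comp (Primrec.succ.comp Primrec.fst)) Primrec.id

def cnt (n K : ℕ) : ℕ := (upto (letters (n + 1)) K).length

lemma cnt_prim : Primrec₂ cnt :=
  Primrec.list_length.comp (upto_prim.comp (letters_prim.comp (Primrec.succ.comp Primrec.fst))
    Primrec.snd)

def nA (x : ℕ × Wd × Wd) : ℕ := cnt x.1 x.2.2.length * (6 ^ (x.1 + 1)) ^ (6 ^ (x.1 + 1))

lemma nA_prim : Primrec nA := by
  have h1 : Primrec (fun x : ℕ × Wd × Wd => 6 ^ (x.1 + 1)) :=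
    pow_prim.comp (Primrec.const 6) (Primrec.succ.comp Primrec.fst)
  exact Primrec.nat_mul.comp (cnt_prim.comp Primrec.fst
    (Primrec.list_length.comp (Primrec.snd.comp Primrec.snd))) (pow_prim.comp h1 h1)

def mA (x : ℕ × Wd × Wd) : ℕ := 5 ^ nA x * x.2.1.length

lemma mA_prim : Primrec mA :=
  Primrec.nat_mul.comp (pow_prim.comp (Primrec.const 5) nA_prim)
    (Primrec.list_length.comp (Primrec.fst.comp Primrec.snd))

def nB (x : ℕ × Wd × Wd) : ℕ := cnt x.1 x.2.2.length * cnt x.1 (mA x)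

lemma nB_prim : Primrec nB :=
  Primrec.nat_mul.comp (cnt_prim.comp Primrec.fst
    (Primrec.list_length.comp (Primrec.snd.comp Primrec.snd))) (cnt_prim.comp Primrec.fst mA_prim)

def cds (x : ℕ × Wd × Wd) : List (List Wd) :=
  upto (upto (letters (x.1 + 1)) (5 ^ (nB x + 1))) (x.1 + 1)

lemma cds_prim : Primrec cds :=
  upto_prim.comp (upto_prim.comp (letters_prim.comp (Primrec.succ.comp Primrec.fst))
    (pow_prim.comp (Primrec.const 5) (Primrec.succ.comp nB_prim))) (Primrec.succ.comp Primrec.fst)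

def good (φ : List Wd) (q : List Wd × ℕ × Wd × Wd) : Prop :=
  ¬ (invr (q.2.1, q.1, φ) ∧ invr (q.2.1, φ, q.1) ∧
      len1 (ap q.2.1 q.1 q.2.2.2) ≤ len1 (md q.2.1 q.2.2.2)) ∨
    len2 (ap q.2.1 q.1 q.2.2.1) ≤ mA q.2 + len1 (ap q.2.1 q.1 q.2.2.1)

lemma good_prim : PrimrecRel good := by
  have hn : Primrec (fun p : List Wd × List Wd × ℕ × Wd × Wd => p.2.2.1) :=
    Primrec.fst.comp (Primrec.snd.comp Primrec.snd)
  have ht : Primrec (fun p : List Wd × List Wd × ℕ × Wd × Wd => p.2.1) :=
    Primrec.fst.comp Primrec.snd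
  have hu : Primrec (fun p : List Wd × List Wd × ℕ × Wd × Wd => p.2.2.2.1) :=
    Primrec.fst.comp (Primrec.snd.comp (Primrec.snd.comp Primrec.snd))
  have hv : Primrec (fun p : List Wd × List Wd × ℕ × Wd × Wd => p.2.2.2.2) :=
    Primrec.snd.comp (Primrec.snd.comp (Primrec.snd.comp Primrec.snd))
  have h1 : Primrec (fun p : List Wd × List Wd × ℕ × Wd × Wd => ap p.2.2.1 p.2.1 p.2.2.2.1) :=
    ap_prim.comp (Primrec.pair hn (Primrec.pair ht hu))
  have h2 : Primrec (fun p : List Wd × List Wd × ℕ × Wd × Wd => ap p.2.2.1 p.2.1 p.2.2.2.2) :=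
    ap_prim.comp (Primrec.pair hn (Primrec.pair ht hv))
  refine PrimrecPred.or (PrimrecPred.not (PrimrecPred.and ?_ (PrimrecPred.and ?_ ?_))) ?_
  · exact invr_prim.comp (Primrec.pair hn (Primrec.pair ht Primrec.fst))
  · exact invr_prim.comp (Primrec.pair hn (Primrec.pair Primrec.fst ht))
  · exact Primrec.nat_le.comp (len1_prim.comp h2) (len1_prim.comp (md_prim.comp hn hv))
  · exact Primrec.nat_le.comp (len2_prim.comp h1) (Primrec.nat_add.comp
      (mA_prim.comp (Primrec.snd.comp Primrec.snd)) (len1_prim.comp h1))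

def good2 (θ : List Wd) (x : ℕ × Wd × Wd) : Prop := ∀ φ ∈ cds x, good φ (θ, x)

lemma good2_prim : PrimrecRel good2 :=
  good_prim.forall_mem_list.comp (cds_prim.comp Primrec.snd) Primrec.id

def chk (x : ℕ × Wd × Wd) : Prop := ∀ θ ∈ cds x, good2 θ x

lemma chk_prim : PrimrecPred chk := good2_prim.forall_mem_list.comp cds_prim Primrec.id

lemma wd_nil (n : ℕ) : wd n [] = 1 := rfl

lemma wd_append (n : ℕ) (l m : Wd) : wd n (l ++ m) = wd n l * wd n m := by
  unfold wd
  rw [List.map_append, mk_append']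

lemma wd_invRev (n : ℕ) (l : Wd) : wd n (FreeGroup.invRev l) = (wd n l)⁻¹ := by
  unfold wd
  rw [FreeGroup.inv_mk]
  congr 1
  simp [FreeGroup.invRev, List.map_reverse, Function.comp_def]

lemma emb_wd (n : ℕ) (l : Wd) : emb (n + 1) (wd n l) = FreeGroup.mk (md n l) := by
  unfold emb wd md
  rw [FreeGroup.map.mk, List.map_map]
  rfl

lemma norm_wd (n : ℕ) (l : Wd) : (wd n l).norm = len1 (md n l) := by
  rw [← norm_map_inj _ Fin.val_injective]
  show (emb (n + 1) (wd n l)).norm = _
  rw [emb_wd]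
  unfold FreeGroup.norm len1
  rw [FreeGroup.toWord_mk]

lemma tau_wd (n : ℕ) (l : Wd) : tau (wd n l) = (len2 (md n l) : ℤ) - len1 (md n l) := by
  rw [← tau_map_inj _ Fin.val_injective, ← tau_mk, ← emb_wd]
  rfl

lemma norm_wd_le (n : ℕ) (l : Wd) : (wd n l).norm ≤ l.length := by
  unfold wd
  refine FreeGroup.norm_mk_le.trans ?_
  rw [List.length_map]

lemma wd_eq_of (n : ℕ) (l : Wd) (i : Fin (n + 1)) :
    wd n l = FreeGroup.of i ↔ FreeGroup.reduce (md n l) = [(i.val, true)] := by
  have e2 : emb (n + 1) (FreeGroup.of i) = FreeGroup.of i.val := by simp [emb]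
  rw [← FreeGroup.toWord_mk, ← emb_wd, ← FreeGroup.toWord_of, ← e2, FreeGroup.toWord_inj]
  constructor
  · intro h
    rw [h]
  · intro h
    have := congrArg (prj (n + 1)) h
    rwa [prj_emb, prj_emb] at this

/-- the code of an element -/
def cod {n : ℕ} (g : FreeGroup (Fin (n + 1))) : Wd := g.toWord.map (fun a => (a.1.val, a.2))

lemma wd_cod {n : ℕ} (g : FreeGroup (Fin (n + 1))) : wd n (cod g) = g := by
  unfold wd cod
  rw [List.map_map]
  conv_rhs => rw [← FreeGroup.mk_toWord (x := g)]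
  congr 1
  conv_rhs => rw [← List.map_id g.toWord]
  refine List.map_congr_left fun a _ => ?_
  refine Prod.ext (Fin.ext ?_) rfl
  exact Nat.mod_eq_of_lt a.1.2

lemma cod_mem {n K : ℕ} (g : FreeGroup (Fin (n + 1))) (h : g.norm ≤ K) :
    cod g ∈ upto (letters (n + 1)) K := by
  refine mem_upto _ _ _ (by unfold cod; rw [List.length_map]; exact h) fun a ha => ?_
  obtain ⟨b, _, rfl⟩ := List.mem_map.1 ha
  exact mem_letters _ b.1.2

/-- a finite set containing a ball -/
noncomputable def ball (n K : ℕ) : Finset (FreeGroup (Fin (n + 1))) :=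
  ((upto (letters (n + 1)) K).map (wd n)).toFinset

lemma mem_ball {n K : ℕ} (g : FreeGroup (Fin (n + 1))) (h : g.norm ≤ K) : g ∈ ball n K :=
  List.mem_toFinset.2 (List.mem_map.2 ⟨cod g, cod_mem g h, wd_cod g⟩)

lemma card_ball (n K : ℕ) : (ball n K).card ≤ cnt n K := by
  refine (List.toFinset_card_le _).trans ?_
  rw [List.length_map]
  exact le_rfl

/-- the endomorphism given by a list of codes -/
def hw (n : ℕ) (θ : List Wd) : FreeGroup (Fin (n + 1)) →* FreeGroup (Fin (n + 1)) :=
  FreeGroup.lift (fun i => wd n (θ.getD i.val []))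

lemma hw_wd (n : ℕ) (θ : List Wd) (l : Wd) : hw n θ (wd n l) = wd n (app θ (md n l)) := by
  induction l with
  | nil => exact map_one _
  | cons a l ih =>
    have e1 : wd n (a :: l) = wd n [a] * wd n l := wd_append n [a] l
    have e2 : app θ (md n (a :: l)) = app θ (md n [a]) ++ app θ (md n l) := by
      unfold app md
      simp only [List.map_cons, List.map_nil, List.flatMap_cons, List.flatMap_nil, List.append_nil]
    rw [e1, map_mul, ih, e2, wd_append]
    congr 1
    obtain ⟨j, s⟩ := a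
    cases s
    · have : app θ (md n [(j, false)]) = FreeGroup.invRev (θ.getD (j % (n + 1)) []) := by
        simp [app, md]
      rw [this, wd_invRev]
      simp only [hw, wd, FreeGroup.lift_mk, List.map_cons, List.map_nil, List.prod_cons,
        List.prod_nil, mul_one, cond_false]
    · have : app θ (md n [(j, true)]) = θ.getD (j % (n + 1)) [] := by
        simp [app, md]
      rw [this]
      simp only [hw, wd, FreeGroup.lift_mk, List.map_cons, List.map_nil, List.prod_cons,
        List.prod_nil, mul_one, cond_true]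

lemma invr_iff (n : ℕ) (θ φ : List Wd) :
    invr (n, θ, φ) ↔ (hw n θ).comp (hw n φ) = MonoidHom.id _ := by
  have h1 : ∀ i : Fin (n + 1), hw n θ (hw n φ (FreeGroup.of i)) = FreeGroup.of i ↔
      FreeGroup.reduce (ap n θ (φ.getD i.val [])) = [(i.val, true)] := by
    intro i
    have e1 : hw n φ (FreeGroup.of i) = wd n (φ.getD i.val []) := by simp [hw]
    rw [e1, hw_wd, wd_eq_of]
    rfl
  constructor
  · intro h
    ext i
    exact (h1 i).2 (h i.val (List.mem_range.2 i.2))
  · intro h i hi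
    exact (h1 ⟨i, List.mem_range.1 hi⟩).1 (DFunLike.congr_fun h (FreeGroup.of ⟨i, List.mem_range.1 hi⟩))

lemma good_iff (n : ℕ) (u v : Wd) (θ φ : List Wd) : good φ (θ, n, u, v) ↔
    ((hw n θ).comp (hw n φ) = MonoidHom.id _ → (hw n φ).comp (hw n θ) = MonoidHom.id _ →
      (hw n θ (wd n v)).norm ≤ (wd n v).norm → tau (hw n θ (wd n u)) ≤ mA (n, u, v)) := by
  unfold good
  rw [← imp_iff_not_or, invr_iff, invr_iff, hw_wd, hw_wd, norm_wd, norm_wd, tau_wd, and_imp,
    and_imp]
  refine imp_congr Iff.rfl (imp_congr Iff.rfl (imp_congr Iff.rfl ?_))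
  unfold ap
  simp only
  omega

lemma exists_code (x : ℕ × Wd × Wd) (θ : MulAut (FreeGroup (Fin (x.1 + 1))))
    (h : Lp (5 ^ (nB x + 1)) θ) : ∃ t ∈ cds x, hw x.1 t = θ.toMonoidHom := by
  refine ⟨List.ofFn (fun i : Fin (x.1 + 1) => cod (θ (FreeGroup.of i))), ?_, ?_⟩
  · refine mem_upto _ _ _ (by rw [List.length_ofFn]) fun w hw => ?_
    rw [List.mem_ofFn] at hw
    obtain ⟨i, rfl⟩ := hw
    refine cod_mem _ ?_
    have := h (FreeGroup.of i)
    rwa [FreeGroup.norm_of, mul_one] at this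
  · ext i
    have : (List.ofFn (fun i : Fin (x.1 + 1) => cod (θ (FreeGroup.of i)))).getD i.val [] =
        cod (θ (FreeGroup.of i)) := by
      rw [List.getD_eq_getElem _ _ (by rw [List.length_ofFn]; exact i.2), List.getElem_ofFn]
    simp only [hw, FreeGroup.lift_apply_of, this, wd_cod]
    rfl

theorem chk_iff (hAP : ∀ n : ℕ, APs (Fin (n + 1))) (x : ℕ × Wd × Wd) :
    chk x ↔ Bdd (wd x.1 x.2.1) (wd x.1 x.2.2) := by
  obtain ⟨n, u, v⟩ := x
  have hv := norm_wd_le n v
  have hu := norm_wd_le n u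
  constructor
  · intro h
    refine bdd_of_ball _ _ (mA (n, u, v)) (ball n v.length) (ball n (mA (n, u, v)))
      (fun g hg => mem_ball g (hg.trans hv)) (fun g hg => mem_ball g hg) (nB (n, u, v))
      (Nat.mul_le_mul (card_ball _ _) (card_ball _ _)) fun θ h1 h2 h3 => ?_
    obtain ⟨t, ht, e1⟩ := exists_code (n, u, v) θ h1
    obtain ⟨s, hs, e2⟩ := exists_code (n, u, v) θ⁻¹ h2
    have := (good_iff n u v t s).1 (h t ht s hs)
    simp only at e1 e2
    rw [e1, e2] at this
    refine this ?_ ?_ h3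
    · ext i
      show (θ * θ⁻¹) (FreeGroup.of i) = _
      rw [mul_inv_cancel]
      rfl
    · ext i
      show (θ⁻¹ * θ) (FreeGroup.of i) = _
      rw [inv_mul_cancel]
      rfl
  · intro h t _ s _
    refine (good_iff n u v t s).2 fun h1 h2 h3 => ?_
    have := bound_of_bdd (hAP n) _ _ h (ball n v.length) (fun g hg => mem_ball g (hg.trans hv))
      (nA (n, u, v)) (by
        rw [Fintype.card_fin]
        exact Nat.mul_le_mul_right _ (card_ball _ _))
      (MonoidHom.toMulEquiv (hw n t) (hw n s) h2 h1) h3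
    refine le_trans this ?_
    exact_mod_cast Nat.mul_le_mul_left _ hu

theorem bdd_computable (hAP : ∀ n : ℕ, APs (Fin (n + 1))) :
    ComputablePred (fun p : ℕ × List (ℕ × Bool) × List (ℕ × Bool) =>
      Bdd (wd p.1 p.2.1) (wd p.1 p.2.2)) :=
  chk_prim.computablePred.of_eq (chk_iff hAP)

end Pool.Agent.H825Z.BTE
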