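import Pool.Agent.H825Z.BTE.Peak
import Pool.Agent.Helper156.OF.RelAut
import Pool.Agent.Helper156.OF.Nielsen
import Pool.Agent.H910Z.TE.Cyc
import Pool.Agent.H8Z.BTE.Defs

set_option autoImplicit false
set_option linter.unusedSectionVars false
set_option linter.unusedVariables false

/-! # Level sets of the length of the image of one element -/

namespace Pool.Agent.H825Z.BTE

open Pool.Agent.Helper156.OF Pool.Agent.H910Z.TE Pool.Agent.H8Z.BTE

variable {α : Type} [DecidableEq α] [Fintype α] [Nonempty α]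

/-- steps in the automorphism group -/
abbrev St (a b : MulAut (FreeGroup α)) : Prop :=
  Stp (toAut : SP α →* MulAut (FreeGroup α)) (eAut (α := α)) a b

lemma act_id : Act (toAut : SP α →* MulAut (FreeGroup α)) (eAut (α := α)) (MonoidHom.id _) :=
  ⟨fun _ => rfl, fun _ _ => rfl⟩

lemma st_mul {a b : MulAut (FreeGroup α)} (s : St a b) (c : MulAut (FreeGroup α)) :
    St (a * c) (b * c) := by
  obtain ⟨w, A, x, hA, rfl⟩ := s
  exact ⟨w, A, x, hA, by group⟩

lemma st_e (x a : Lt α) (h : x.1 ≠ a.1) : St (1 : MulAut (FreeGroup α)) (eAut x a) := by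
  have hv : Va ({some a, some x} : Finset (Option (Lt α))) a := by
    refine ⟨Finset.mem_insert_self _ _, ?_⟩
    rw [Finset.mem_insert, Finset.mem_singleton, not_or]
    refine ⟨fun e => nv_ne a (Option.some_injective _ e), fun e => h ?_⟩
    rw [← Option.some_injective _ e, nv_fst]
  have h1 : om (eAut (α := α)) ({some a, some x} : Finset (Option (Lt α))) a = eAut x a := by
    rw [(rel_aut (α := α)).om_insert_same _ _ _ rfl]
    unfold om cprod
    simp [xE]
  have := stp_om (rel_aut (α := α)) hv (1 : MulAut (FreeGroup α))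
  rwa [h1, mul_one] at this

lemma reach_all (θ : MulAut (FreeGroup α)) : Relation.ReflTransGen St 1 θ := by
  have hm : ∀ {a b : MulAut (FreeGroup α)} (c : MulAut (FreeGroup α)),
      Relation.ReflTransGen St a b → Relation.ReflTransGen St (a * c) (b * c) := by
    intro a b c h
    induction h with
    | refl => exact Relation.ReflTransGen.refl
    | tail _ s ih => exact ih.tail (st_mul s c)
  have hs : ∀ {a b : MulAut (FreeGroup α)},
      Relation.ReflTransGen St a b → Relation.ReflTransGen St b a := by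
    intro a b h
    induction h with
    | refl => exact Relation.ReflTransGen.refl
    | tail _ s ih => exact Relation.ReflTransGen.head (stp_symm rel_aut s) ih
  refine Subgroup.closure_induction (p := fun θ _ => Relation.ReflTransGen St 1 θ) ?_ ?_ ?_ ?_
    (nielsen_generation θ)
  · rintro x (⟨w, rfl⟩ | ⟨y, a, hya, rfl⟩)
    · have := stp_W rel_aut w (1 : MulAut (FreeGroup α))
      rw [mul_one] at this
      exact Relation.ReflTransGen.single this
    · exact Relation.ReflTransGen.single (st_e y a hya)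
  · exact Relation.ReflTransGen.refl
  · intro x y _ _ hx hy
    have := hm y hx
    rw [one_mul] at this
    exact hy.trans this
  · intro x _ hx
    have := hm x⁻¹ hx
    rw [one_mul, mul_inv_cancel] at this
    exact hs this

/-- steps inside a sublevel set -/
def Sl (v : FreeGroup α) (N : ℕ) (a b : MulAut (FreeGroup α)) : Prop :=
  St a b ∧ (a v).norm < N ∧ (b v).norm < N

lemma conn_big (v : FreeGroup α) (θ : MulAut (FreeGroup α)) :
    ∃ M, ∀ M', M ≤ M' → (θ v).norm < M' ∧ Relation.ReflTransGen (Sl v M') 1 θ := by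
  have h := reach_all θ
  induction h with
  | refl => exact ⟨v.norm + 1, fun M' hM => ⟨hM, Relation.ReflTransGen.refl⟩⟩
  | @tail b c _ s ih =>
    obtain ⟨M, hM⟩ := ih
    refine ⟨M + (c v).norm + 1, fun M' h' => ⟨by omega, ?_⟩⟩
    obtain ⟨h1, h2⟩ := hM M' (by omega)
    exact h2.tail ⟨s, h1, by omega⟩

theorem conn_level (v : FreeGroup α) (N : ℕ) (θ : MulAut (FreeGroup α)) (h1 : v.norm < N)
    (h2 : (θ v).norm < N) : Relation.ReflTransGen (Sl v N) 1 θ := by
  obtain ⟨M, hM⟩ := conn_big v θ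
  exact conn_low rel_aut act_id v (M + N) N 1 θ h1 h2 (by omega) (hM (M + N) (by omega)).2

theorem down (v : FreeGroup α) (θ : MulAut (FreeGroup α)) (h : v.norm < (θ v).norm) :
    ∃ θ', St θ θ' ∧ (θ' v).norm < (θ v).norm :=
  exists_down rel_aut act_id v (θ v).norm 1 θ h rfl
    (conn_level v ((θ v).norm + 1) θ (by omega) (by omega))

/-- Lipschitz bound for the word length -/
def Lp (L : ℕ) (θ : MulAut (FreeGroup α)) : Prop := ∀ g : FreeGroup α, (θ g).norm ≤ L * g.norm

lemma lp_of_gl {L : ℕ} {θ : MulAut (FreeGroup α)} (h : ∀ y : Lt α, (θ (gl y)).norm ≤ L) :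
    Lp L θ := by
  intro g
  have key : ∀ l : List (Lt α), (θ (FreeGroup.mk l)).norm ≤ L * l.length := by
    intro l
    induction l with
    | nil => rw [← FreeGroup.one_eq_mk, map_one]; simp
    | cons x l ih =>
      rw [mk_cons, map_mul, List.length_cons, mul_add, mul_one]
      have := FreeGroup.norm_mul_le (θ (gl x)) (θ (FreeGroup.mk l))
      have := h x
      omega
  have := key g.toWord
  rwa [FreeGroup.mk_toWord] at this

lemma lp_mul {L K : ℕ} {θ φ : MulAut (FreeGroup α)} (h1 : Lp L θ) (h2 : Lp K φ) :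
    Lp (L * K) (θ * φ) := by
  intro g
  rw [MulAut.mul_apply, mul_assoc]
  exact (h1 _).trans (Nat.mul_le_mul_left _ (h2 g))

lemma lp_mono {L K : ℕ} {θ : MulAut (FreeGroup α)} (h1 : Lp L θ) (h : L ≤ K) : Lp K θ :=
  fun g => (h1 g).trans (Nat.mul_le_mul_right _ h)

lemma lp_one : Lp 1 (1 : MulAut (FreeGroup α)) := fun g => by simp

lemma lp_om (A : Finset (Option (Lt α))) (a : Lt α) (hA : Va A a) :
    Lp 5 (om (eAut (α := α)) A a) := by
  apply lp_of_gl
  intro y
  have h := act_om rel_aut act_id a A hA y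
  rw [MonoidHom.id_apply] at h
  rw [h]
  have g1 : ∀ p, (gA A a p).norm ≤ 1 := by
    intro p
    unfold gA
    split_ifs
    · exact norm_gl a
    · simp
  have g2 : (if y.1 = a.1 then 1 else gl y).norm ≤ 1 := by
    split_ifs
    · simp
    · exact norm_gl y
  generalize (if y.1 = a.1 then 1 else gl y) = m at g2 ⊢
  have a0 := g1 none
  have a1 := g1 (some (nv y))
  have a2 := g1 (some y)
  generalize gA A a none = p0 at a0 ⊢
  generalize gA A a (some (nv y)) = p1 at a1 ⊢
  generalize gA A a (some y) = p2 at a2 ⊢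
  have b1 := FreeGroup.norm_mul_le (p0 * (p1⁻¹ * m * p2)) p0⁻¹
  have b2 := FreeGroup.norm_mul_le p0 (p1⁻¹ * m * p2)
  have b3 := FreeGroup.norm_mul_le (p1⁻¹ * m) p2
  have b4 := FreeGroup.norm_mul_le p1⁻¹ m
  rw [FreeGroup.norm_inv_eq] at b1 b4
  omega

lemma st_lp {a b : MulAut (FreeGroup α)} (s : St a b) : Lp 5 (b * a⁻¹) := by
  obtain ⟨w, A, x, hA, rfl⟩ := s
  have e : toAut w * (om (eAut (α := α)) A x * a) * a⁻¹ = toAut w * om (eAut (α := α)) A x := by
    group
  rw [e]
  have := lp_mul (L := 1) (θ := toAut w) (fun g => by rw [one_mul]; exact toAut_norm_le w g)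
    (lp_om A x hA)
  rwa [one_mul] at this

lemma st_lp2 {L : ℕ} {a b : MulAut (FreeGroup α)} (s : St a b) (h : Lp L a ∧ Lp L a⁻¹) :
    Lp (5 * L) b ∧ Lp (5 * L) b⁻¹ := by
  constructor
  · have := lp_mul (st_lp s) h.1
    rwa [inv_mul_cancel_right] at this
  · have := lp_mul h.2 (st_lp (stp_symm rel_aut s))
    rwa [inv_mul_cancel_left, mul_comm] at this

lemma tau_nonneg (g : FreeGroup α) : 0 ≤ tau g := by
  rw [tau_eq_len]
  exact Int.natCast_nonneg _

lemma tau_le_conj (g h : FreeGroup α) : tau g ≤ (h * g * h⁻¹).norm := by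
  rw [tau_eq_len]
  exact_mod_cast len_le_conj g h

lemma tau_le_norm (g : FreeGroup α) : tau g ≤ g.norm := by
  have := tau_le_conj g 1
  simpa using this

lemma exists_cyc (g : FreeGroup α) : ∃ h c : FreeGroup α, g = h * c * h⁻¹ ∧ (c.norm : ℤ) ≤ tau g := by
  have h1 := FreeGroup.reduceCyclically.conj_conjugator_reduceCyclically g.toWord
  refine ⟨FreeGroup.mk (FreeGroup.reduceCyclically.conjugator g.toWord),
    FreeGroup.mk (FreeGroup.reduceCyclically g.toWord), ?_, ?_⟩
  · rw [FreeGroup.inv_mk, ← mk_append', ← mk_append', h1, FreeGroup.mk_toWord]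
  · rw [tau_eq_len]
    exact_mod_cast FreeGroup.norm_mk_le

lemma tau_conj_le (g h : FreeGroup α) : tau (h * g * h⁻¹) ≤ tau g := by
  obtain ⟨k, c, e, hc⟩ := exists_cyc g
  have h1 := tau_le_conj (h * g * h⁻¹) (h * k)⁻¹
  have h2 : (h * k)⁻¹ * (h * g * h⁻¹) * (h * k)⁻¹⁻¹ = c := by
    rw [e]
    group
  rw [h2] at h1
  exact h1.trans hc

lemma tau_isConj {g h : FreeGroup α} (c : IsConj g h) : tau g = tau h := by
  obtain ⟨k, rfl⟩ := isConj_iff.1 c
  apply le_antisymm _ (tau_conj_le g k)
  have := tau_conj_le (k * g * k⁻¹) k⁻¹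
  rwa [show k⁻¹ * (k * g * k⁻¹) * k⁻¹⁻¹ = g by group] at this

lemma tau_lp {L : ℕ} {θ : MulAut (FreeGroup α)} (h : Lp L θ) (g : FreeGroup α) :
    tau (θ g) ≤ L * tau g := by
  obtain ⟨k, c, e, hc⟩ := exists_cyc g
  have h1 : tau (θ g) ≤ (θ c).norm := by
    have := tau_le_conj (θ g) (θ k)⁻¹
    rwa [show (θ k)⁻¹ * θ g * (θ k)⁻¹⁻¹ = θ c by rw [e, map_mul, map_mul, map_inv]; group] at this
  have h2 : ((θ c).norm : ℤ) ≤ L * c.norm := by exact_mod_cast h c
  have h3 : (L : ℤ) * c.norm ≤ L * tau g := mul_le_mul_of_nonneg_left hc (Int.natCast_nonneg _)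
  omega

end Pool.Agent.H825Z.BTE

namespace Pool.Agent.H825Z.BTE

open Pool.Agent.Helper156.OF Pool.Agent.H910Z.TE Pool.Agent.H8Z.BTE

theorem bddAll_of_bdd {α : Type} [Fintype α] [DecidableEq α] [Nonempty α] (u v : FreeGroup α)
    (h : Bdd u v) : BddAll u v := by
  obtain ⟨M, hM⟩ := h
  intro K
  induction K with
  | zero => exact ⟨M, fun θ hθ => hM θ (by omega)⟩
  | succ K ih =>
    obtain ⟨M', hM'⟩ := ih
    refine ⟨max M (5 * M'), fun θ hθ => ?_⟩
    by_cases h1 : (θ v).norm ≤ v.norm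
    · exact (hM θ h1).trans (le_max_left _ _)
    · obtain ⟨θ', s, hs⟩ := down v θ (by omega)
      have h2 := hM' θ' (by omega)
      have h3 := tau_lp (st_lp (stp_symm rel_aut s)) (θ' u)
      rw [← MulAut.mul_apply, inv_mul_cancel_right] at h3
      refine le_trans ?_ (le_max_right _ _)
      push_cast at h3
      omega

end Pool.Agent.H825Z.BTE
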