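import Pool.Agent.Helper156.OF.Peak

set_option autoImplicit false
set_option linter.unusedSectionVars false
set_option linter.unusedVariables false

/-! # Peak reduction for the length of the image of one element -/

namespace Pool.Agent.H825Z.BTE

open Pool.Agent.Helper156.OF

variable {α P : Type} [DecidableEq α] [Fintype α] [Group P]

/-- The length of the image of `v`. -/
noncomputable def htv (π : P →* MulAut (FreeGroup α)) (v : FreeGroup α) (g : P) : ℕ :=
  ((π g) v).norm

/-- Number of turns of the image of `v` cut by a set. -/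
noncomputable def cgv (π : P →* MulAut (FreeGroup α)) (v : FreeGroup α) (g : P)
    (A : Finset (Option (Lt α))) : ℕ :=
  cut A ((π g) v).toWord

/-- Number of occurrences of a letter in the image of `v`. -/
noncomputable def dgv (π : P →* MulAut (FreeGroup α)) (v : FreeGroup α) (g : P) (a : Lt α) : ℕ :=
  occ a ((π g) v).toWord

lemma cgv_compl (π : P →* MulAut (FreeGroup α)) (v : FreeGroup α) (g : P)
    (A : Finset (Option (Lt α))) : cgv π v g Aᶜ = cgv π v g A := cut_compl A _

lemma cgv_submod (π : P →* MulAut (FreeGroup α)) (v : FreeGroup α) (g : P)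
    (A B : Finset (Option (Lt α))) :
    cgv π v g (A ∩ B) + cgv π v g (A ∪ B) ≤ cgv π v g A + cgv π v g B := cut_submod A B _

lemma dgv_nv (π : P →* MulAut (FreeGroup α)) (v : FreeGroup α) (g : P) (a : Lt α) :
    dgv π v g (nv a) = dgv π v g a := by
  unfold dgv occ
  rfl

lemma toAut_norm_le (σ : SP α) (v : FreeGroup α) : (toAut σ v).norm ≤ v.norm := by
  have : toAut σ v = FreeGroup.mk (v.toWord.map (σ : Equiv.Perm (Lt α))) := by
    conv_lhs => rw [← FreeGroup.mk_toWord (x := v)]
    induction v.toWord with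
    | nil =>
      rw [List.map_nil]
      exact map_one _
    | cons x l ih => rw [mk_cons, map_mul, ih, List.map_cons, mk_cons, toAut_gl]
  rw [this]
  refine le_trans FreeGroup.norm_mk_le ?_
  rw [List.length_map]
  rfl

/-- Connectedness below a height. -/
def Cnv (W : SP α →* P) (E : Lt α → Lt α → P) (π : P →* MulAut (FreeGroup α)) (v : FreeGroup α)
    (N : ℕ) : P → P → Prop :=
  Relation.ReflTransGen (fun a b => Stp W E a b ∧ htv π v a < N ∧ htv π v b < N)

/-- Joinability below a height. -/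
def Jov (W : SP α →* P) (E : Lt α → Lt α → P) (π : P →* MulAut (FreeGroup α)) (v : FreeGroup α)
    (N : ℕ) (g h : P) : Prop :=
  ∃ k, Stp W E g k ∧ htv π v k < N ∧ Cnv W E π v N k h

section

variable {W : SP α →* P} {E : Lt α → Lt α → P} {π : P →* MulAut (FreeGroup α)}
variable (R : Rel W E) (H : Act W E π) (v : FreeGroup α)

include R H

lemma htv_om_aux (g : P) (A : Finset (Option (Lt α))) (a : Lt α) (hA : Va A a) (hn : none ∉ A) :
    htv π v (om E A a * g) + dgv π v g a = htv π v g + cgv π v g A := by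
  unfold htv dgv cgv
  set t := (π g) v with ht
  rw [map_mul, MulAut.mul_apply, ← ht]
  have h := norm_whitehead A a hA.1 hA.2 hn ((π (om E A a)).toMonoidHom) (fun y => by
    have := act_om R H a A hA y
    simp only [gA, if_neg hn, inv_one, one_mul, mul_one] at this
    exact this) t.toWord FreeGroup.isReduced_toWord
  rw [FreeGroup.mk_toWord] at h
  exact h

/-- Exact change of the height. -/
lemma htv_om (g : P) (A : Finset (Option (Lt α))) (a : Lt α) (hA : Va A a) :
    htv π v (om E A a * g) + dgv π v g a = htv π v g + cgv π v g A := by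
  by_cases hn : none ∈ A
  · have := htv_om_aux R H v g Aᶜ (nv a) hA.compl (by rw [Finset.mem_compl, not_not]; exact hn)
    rwa [R.om_compl, cgv_compl, dgv_nv] at this
  · exact htv_om_aux R H v g A a hA hn

lemma htv_two (g : P) (A C : Finset (Option (Lt α))) (a z : Lt α) (hA : Va A a) (hC : Va C z)
    (hAC : Disjoint A C) (ha : some (nv a) ∉ C) :
    htv π v (om E C z * (om E A a * g)) + dgv π v g a + dgv π v g z ≤
      htv π v g + cgv π v g A + cgv π v g C := by
  have ha' : some a ∉ C := fun h => (Finset.disjoint_left.1 hAC) hA.1 h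
  have haz : a.1 ≠ z.1 := by
    intro h
    rcases fst_eq_iff.1 h with h | h
    · exact ha' (h ▸ hC.1)
    · rw [h, nv_nv] at ha
      exact ha hC.1
  set G : Option (Lt α) → FreeGroup α :=
    fun p => if p ∈ A then gl a else if p ∈ C then gl z else 1 with hG
  have hG2 : ∀ p, G p = gA C z p * gA A a p := by
    intro p
    simp only [hG, gA]
    by_cases h1 : p ∈ A
    · have h2 : p ∉ C := (Finset.disjoint_left.1 hAC) h1
      simp [h1, h2]
    · by_cases h2 : p ∈ C
      · simp [h1, h2]
      · simp [h1, h2]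
  set ψ : FreeGroup α →* FreeGroup α :=
    ((π (om E C z)).toMonoidHom).comp ((π (om E A a)).toMonoidHom) with hψ
  have hz1 : π (om E C z) (gl a) = gA C z none * gl a * (gA C z none)⁻¹ := by
    rw [act_om R H z C hC a, if_neg haz]
    simp [gA, ha, ha']
  have hz2 : ∀ p, π (om E C z) (gA A a p) = gA C z none * gA A a p * (gA C z none)⁻¹ := by
    intro p
    by_cases hp : p ∈ A
    · have h1 : gA A a p = gl a := by simp [gA, hp]
      rw [h1, hz1]
    · have h1 : gA A a p = 1 := by simp [gA, hp]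
      rw [h1, map_one]
      group
  have key : ∀ y : Lt α, ψ (gl y) = G none * ((G (some (nv y)))⁻¹ *
      (if y.1 = a.1 ∨ y.1 = z.1 then 1 else gl y) * G (some y)) * (G none)⁻¹ := by
    intro y
    have e1 : ψ (gl y) = π (om E C z) (π (om E A a) (gl y)) := rfl
    rw [e1, act_om R H a A hA y]
    simp only [map_mul, map_inv, hz2]
    by_cases hy : y.1 = a.1
    · rw [if_pos hy, if_pos (Or.inl hy), map_one]
      have hy1 : gA C z (some y) = 1 := by
        rcases fst_eq_iff.1 hy with h | h
        · subst h; simp [gA, ha']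
        · subst h; simp [gA, ha]
      have hy2 : gA C z (some (nv y)) = 1 := by
        rcases fst_eq_iff.1 hy with h | h
        · subst h; simp [gA, ha]
        · subst h; simp [gA, ha']
      rw [hG2, hG2, hG2, hy1, hy2]
      group
    · rw [if_neg hy, act_om R H z C hC y]
      have : (y.1 = a.1 ∨ y.1 = z.1) ↔ y.1 = z.1 := by simp [hy]
      rw [hG2, hG2, hG2]
      simp only [this]
      group
  unfold htv dgv cgv
  set t := (π g) v with ht
  have h := norm_two A C a z haz hAC G (fun p => rfl) ψ key t.toWord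
  rw [FreeGroup.mk_toWord] at h
  have e2 : (π (om E C z * (om E A a * g))) v = ψ t := by
    rw [map_mul, map_mul, MulAut.mul_apply, MulAut.mul_apply]
    rfl
  rw [e2]
  exact h

lemma htv_W (w : SP α) (g : P) : htv π v (W w * g) = htv π v g := by
  unfold htv
  rw [map_mul, MulAut.mul_apply, H.hW]
  apply le_antisymm (toAut_norm_le w _)
  have := toAut_norm_le w⁻¹ (toAut w ((π g) v))
  rw [← MulAut.mul_apply, ← map_mul, inv_mul_cancel, map_one, MulAut.one_apply] at this
  exact this

end

section peak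

variable {W : SP α →* P} {E : Lt α → Lt α → P} {π : P →* MulAut (FreeGroup α)}
variable [Nonempty α] (R : Rel W E) (H : Act W E π) (u : FreeGroup α)

include R H

lemma joi_directV {N : ℕ} {g h : P} (s : Stp W E g h) (hh : htv π u h < N) : Jov W E π u N g h :=
  ⟨h, s, hh, Relation.ReflTransGen.refl⟩

lemma joi_twoV {N : ℕ} {g k h : P} (s : Stp W E g k) (t : Stp W E k h) (hk : htv π u k < N)
    (hh : htv π u h < N) : Jov W E π u N g h :=
  ⟨k, s, hk, Relation.ReflTransGen.single ⟨t, hk, hh⟩⟩

/-- Compatible (disjoint) case. -/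
lemma joi_disjV (g : P) (A C : Finset (Option (Lt α))) (a z : Lt α) (hA : Va A a) (hC : Va C z)
    (hAC : Disjoint A C) (h1 : htv π u (om E A a * g) ≤ htv π u g) (h2 : htv π u (om E C z * g) < htv π u g) :
    Jov W E π u (htv π u g) (om E A a * g) (om E C z * g) := by
  have k1 := htv_om R H u g A a hA
  have k2 := htv_om R H u g C z hC
  by_cases ha : some (nv a) ∈ C
  · by_cases hz : some (nv z) ∈ A
    · by_cases hza : z = nv a
      · subst hza
        exact joi_directV R H u (stp_same R hA hC hAC g) h2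
      · have hCa : Va C (nv a) := by
          refine ⟨ha, ?_⟩
          rw [nv_nv]
          exact fun h => (Finset.disjoint_left.1 hAC) hA.1 h
        have hAz : Va A (nv z) := by
          refine ⟨hz, ?_⟩
          rw [nv_nv]
          exact fun h => (Finset.disjoint_left.1 hAC) h hC.1
        rcases le_or_gt (dgv π u g z) (dgv π u g a) with hd | hd
        · have k3 := htv_om R H u g C (nv a) hCa
          rw [dgv_nv] at k3
          exact joi_twoV R H u (stp_same R hA hCa hAC g) (stp_switch R hCa hC g) (by omega) h2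
        · have k3 := htv_om R H u g A (nv z) hAz
          rw [dgv_nv] at k3
          have hs := stp_same R hAz (by rw [nv_nv]; exact hC) hAC g
          rw [nv_nv] at hs
          exact joi_twoV R H u (stp_switch R hA hAz g) hs (by omega) h2
    · obtain ⟨A', hA', e⟩ := R.om_square C A z a hC hA hAC.symm hz
      have e' : om E A' z * (om E A a * g) = om E A a * (om E C z * g) := by
        rw [← mul_assoc, e, mul_assoc]
      have k3 := htv_two R H u g C A z a hC hA hAC.symm hz
      refine joi_twoV R H u (k := om E A a * (om E C z * g)) ?_ ?_ (by omega) h2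
      · rw [← e']
        exact stp_om R hA' _
      · exact stp_symm R (stp_om R hA _)
  · obtain ⟨A', hA', e⟩ := R.om_square A C a z hA hC hAC ha
    have e' : om E A' a * (om E C z * g) = om E C z * (om E A a * g) := by
      rw [← mul_assoc, e, mul_assoc]
    have k3 := htv_two R H u g A C a z hA hC hAC ha
    refine joi_twoV R H u (k := om E C z * (om E A a * g)) (stp_om R hC _) ?_ (by omega) h2
    apply stp_symm R
    rw [← e']
    exact stp_om R hA' _

/-- Compatible case. -/
lemma joi_compV (g : P) (A C : Finset (Option (Lt α))) (a z : Lt α) (hA : Va A a) (hC : Va C z)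
    (hAC : Disjoint A C ∨ C ⊆ A) (h1 : htv π u (om E A a * g) ≤ htv π u g)
    (h2 : htv π u (om E C z * g) < htv π u g) :
    Jov W E π u (htv π u g) (om E A a * g) (om E C z * g) := by
  rcases hAC with h | h
  · exact joi_disjV R H u g A C a z hA hC h h1 h2
  · have := joi_disjV R H u g Aᶜ C (nv a) z hA.compl hC
      ((Finset.disjoint_left.2 fun x hx hx' => (Finset.mem_compl.1 hx) (h hx')))
      (by rwa [R.om_compl]) h2
    rwa [R.om_compl] at this

lemma joi_compW (g : P) (C B : Finset (Option (Lt α))) (z b : Lt α) (hC : Va C z) (hB : Va B b)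
    (hCB : Disjoint B C ∨ C ⊆ B) (h1 : htv π u (om E C z * g) ≤ htv π u g)
    (h2 : htv π u (om E B b * g) < htv π u g) :
    Jov W E π u (htv π u g) (om E C z * g) (om E B b * g) := by
  rcases hCB with h | h
  · exact joi_disjV R H u g C B z b hC hB h.symm h1 h2
  · have := joi_disjV R H u g C Bᶜ z (nv b) hC hB.compl
      ((Finset.disjoint_left.2 fun x hx hx' => (Finset.mem_compl.1 hx') (h hx)))
      h1 (by rwa [R.om_compl])
    rwa [R.om_compl] at this

/-- Existence of a reducing corner. -/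
lemma cornerV (g : P) (A B : Finset (Option (Lt α))) (a b : Lt α) (hA : Va A a) (hB : Va B b)
    (h : cgv π u g A + cgv π u g B < dgv π u g a + dgv π u g b) :
    ∃ (C : Finset (Option (Lt α))) (z : Lt α), Va C z ∧ cgv π u g C < dgv π u g z ∧
      (Disjoint A C ∨ C ⊆ A) ∧ (Disjoint B C ∨ C ⊆ B) := by
  have s1 := cgv_submod π u g A B
  have s2 := cgv_submod π u g A Bᶜ
  have s3 : cgv π u g (A ∪ B) = cgv π u g (A ∪ B)ᶜ := (cgv_compl π u g _).symm
  have s4 : cgv π u g (A ∪ Bᶜ) = cgv π u g (B \ A) := by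
    rw [← cgv_compl π u g (B \ A)]
    congr 1
    ext x
    simp only [Finset.mem_union, Finset.mem_compl, Finset.mem_sdiff]
    tauto
  have s5 : A ∩ Bᶜ = A \ B := by
    ext x
    simp only [Finset.mem_inter, Finset.mem_compl, Finset.mem_sdiff]
  rw [s4, s5, cgv_compl π u g B] at s2
  rw [s3] at s1
  by_contra hcon
  have i1 : A ∩ B ⊆ A := Finset.inter_subset_left
  have i2 : A ∩ B ⊆ B := Finset.inter_subset_right
  have i3 : A \ B ⊆ A := Finset.sdiff_subset
  have i4 : Disjoint B (A \ B) := Finset.disjoint_sdiff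
  have i5 : B \ A ⊆ B := Finset.sdiff_subset
  have i6 : Disjoint A (B \ A) := Finset.disjoint_sdiff
  have i7 : Disjoint A (A ∪ B)ᶜ :=
    Finset.disjoint_left.2 fun x hx hx' => (Finset.mem_compl.1 hx') (Finset.mem_union_left _ hx)
  have i8 : Disjoint B (A ∪ B)ᶜ :=
    Finset.disjoint_left.2 fun x hx hx' => (Finset.mem_compl.1 hx') (Finset.mem_union_right _ hx)
  have mk : ∀ (C : Finset (Option (Lt α))) (z : Lt α), (Disjoint A C ∨ C ⊆ A) →
      (Disjoint B C ∨ C ⊆ B) → some z ∈ C → some (nv z) ∉ C → dgv π u g z ≤ cgv π u g C := by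
    intro C z u1 u2 u3 u4
    by_contra hlt
    exact hcon ⟨C, z, ⟨u3, u4⟩, by omega, u1, u2⟩
  have t1 : some a ∈ B → dgv π u g a ≤ cgv π u g (A ∩ B) := fun hu => by
    refine mk _ _ (Or.inr i1) (Or.inr i2) (Finset.mem_inter.2 ⟨hA.1, hu⟩) ?_
    exact fun v => hA.2 (Finset.mem_inter.1 v).1
  have t2 : some a ∉ B → dgv π u g a ≤ cgv π u g (A \ B) := fun hu => by
    refine mk _ _ (Or.inr i3) (Or.inl i4) (Finset.mem_sdiff.2 ⟨hA.1, hu⟩) ?_
    exact fun v => hA.2 (Finset.mem_sdiff.1 v).1
  have t3 : some (nv a) ∈ B → dgv π u g a ≤ cgv π u g (B \ A) := fun hu => by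
    rw [← dgv_nv]
    refine mk _ _ (Or.inl i6) (Or.inr i5) (Finset.mem_sdiff.2 ⟨hu, hA.2⟩) ?_
    rw [nv_nv]
    exact fun v => (Finset.mem_sdiff.1 v).2 hA.1
  have t4 : some (nv a) ∉ B → dgv π u g a ≤ cgv π u g (A ∪ B)ᶜ := fun hu => by
    rw [← dgv_nv]
    refine mk _ _ (Or.inl i7) (Or.inl i8) ?_ ?_
    · rw [Finset.mem_compl, Finset.mem_union, not_or]
      exact ⟨hA.2, hu⟩
    · rw [nv_nv, Finset.mem_compl, not_not]
      exact Finset.mem_union_left _ hA.1
  have t5 : some b ∈ A → dgv π u g b ≤ cgv π u g (A ∩ B) := fun hu => by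
    refine mk _ _ (Or.inr i1) (Or.inr i2) (Finset.mem_inter.2 ⟨hu, hB.1⟩) ?_
    exact fun v => hB.2 (Finset.mem_inter.1 v).2
  have t6 : some b ∉ A → dgv π u g b ≤ cgv π u g (B \ A) := fun hu => by
    refine mk _ _ (Or.inl i6) (Or.inr i5) (Finset.mem_sdiff.2 ⟨hB.1, hu⟩) ?_
    exact fun v => hB.2 (Finset.mem_sdiff.1 v).1
  have t7 : some (nv b) ∈ A → dgv π u g b ≤ cgv π u g (A \ B) := fun hu => by
    rw [← dgv_nv]
    refine mk _ _ (Or.inr i3) (Or.inl i4) (Finset.mem_sdiff.2 ⟨hu, hB.2⟩) ?_
    rw [nv_nv]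
    exact fun v => (Finset.mem_sdiff.1 v).2 hB.1
  have t8 : some (nv b) ∉ A → dgv π u g b ≤ cgv π u g (A ∪ B)ᶜ := fun hu => by
    rw [← dgv_nv]
    refine mk _ _ (Or.inl i7) (Or.inl i8) ?_ ?_
    · rw [Finset.mem_compl, Finset.mem_union, not_or]
      exact ⟨hu, hB.2⟩
    · rw [nv_nv, Finset.mem_compl, not_not]
      exact Finset.mem_union_right _ hB.1
  by_cases c1 : some a ∈ B <;> by_cases c2 : some (nv a) ∈ B <;> by_cases c3 : some b ∈ A <;>
    by_cases c4 : some (nv b) ∈ A <;>
    simp only [c1, c2, c3, c4, not_true_eq_false, not_false_eq_true, forall_const,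
      IsEmpty.forall_iff] at t1 t2 t3 t4 t5 t6 t7 t8 <;> omega

lemma joi_omV (g : P) (A B : Finset (Option (Lt α))) (a b : Lt α) (hA : Va A a) (hB : Va B b)
    (h1 : htv π u (om E A a * g) ≤ htv π u g) (h2 : htv π u (om E B b * g) < htv π u g) :
    Jov W E π u (htv π u g) (om E A a * g) (om E B b * g) := by
  have k1 := htv_om R H u g A a hA
  have k2 := htv_om R H u g B b hB
  obtain ⟨C, z, hC, hlt, cA, cB⟩ := cornerV R H u g A B a b hA hB (by omega)
  have k3 := htv_om R H u g C z hC
  have h3 : htv π u (om E C z * g) < htv π u g := by omega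
  obtain ⟨k, s1, s2, s3⟩ := joi_compV R H u g A C a z hA hC cA h1 h3
  obtain ⟨l, t1, t2, t3⟩ := joi_compW R H u g C B z b hC hB cB h3.le h2
  refine ⟨k, s1, s2, s3.trans ?_⟩
  exact Relation.ReflTransGen.head ⟨t1, h3, t2⟩ t3

/-- The peak lemma. -/
lemma peakV (g g₁ g₂ : P) (s₁ : Stp W E g g₁) (s₂ : Stp W E g g₂) (h1 : htv π u g₁ ≤ htv π u g)
    (h2 : htv π u g₂ < htv π u g) : Jov W E π u (htv π u g) g₁ g₂ := by
  obtain ⟨w, A, a, hA, rfl⟩ := s₁
  obtain ⟨v, B, b, hB, rfl⟩ := s₂
  rw [htv_W R H u] at h1 h2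
  obtain ⟨k, t1, t2, t3⟩ := joi_omV R H u g A B a b hA hB h1 h2
  refine ⟨k, stp_W_right R w t1, t2, t3.tail ⟨stp_W R v _, h2, ?_⟩⟩
  rwa [htv_W R H u]

lemma conn_descendV (N : ℕ) (x y : P) (hx : htv π u x < N) (hy : htv π u y < N)
    (h : Cnv W E π u (N + 1) x y) : Cnv W E π u N x y := by
  have key : ∀ y, Cnv W E π u (N + 1) x y → (htv π u y < N → Cnv W E π u N x y) ∧
      (htv π u y = N → ∀ g', Stp W E y g' → htv π u g' < N → Cnv W E π u N x g') := by
    intro y hxy
    induction hxy with
    | refl => exact ⟨fun _ => Relation.ReflTransGen.refl, fun h => by omega⟩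
    | @tail y z _ hyz ih =>
      obtain ⟨s, h3, h4⟩ := hyz
      rcases lt_or_eq_of_le (Nat.lt_succ_iff.1 h3) with hy' | hy'
      · have c1 := ih.1 hy'
        refine ⟨fun hz => c1.tail ⟨s, hy', hz⟩, fun hz g' s' hg' => ?_⟩
        obtain ⟨k, t1, t2, t3⟩ := peakV R H u z y g' (stp_symm R s) s' (by omega) (by omega)
        rw [hz] at t2 t3
        exact (c1.tail ⟨t1, hy', t2⟩).trans t3
      · have c2 := ih.2 hy'
        refine ⟨fun hz => c2 z s hz, fun hz g' s' hg' => ?_⟩
        obtain ⟨k, t1, t2, t3⟩ := peakV R H u z y g' (stp_symm R s) s' (by omega) (by omega)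
        rw [hz] at t2 t3
        exact (c2 k t1 t2).trans t3
  exact (key y h).1 hy

lemma conn_low (M N : ℕ) (x y : P) (hx : htv π u x < N) (hy : htv π u y < N) (hNM : N ≤ M)
    (h : Cnv W E π u M x y) : Cnv W E π u N x y := by
  obtain ⟨k, rfl⟩ := Nat.exists_eq_add_of_le hNM
  induction k with
  | zero => simpa using h
  | succ k ih =>
    apply ih (by omega)
    apply conn_descendV R H u _ _ _ (by omega) (by omega)
    exact h

lemma exists_down (N : ℕ) (x y : P) (hx : htv π u x < N) (hy : htv π u y = N)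
    (h : Cnv W E π u (N + 1) x y) : ∃ k, Stp W E y k ∧ htv π u k < N := by
  induction h with
  | refl => omega
  | @tail y z _ hyz ih =>
    obtain ⟨s, h3, h4⟩ := hyz
    rcases lt_or_eq_of_le (Nat.lt_succ_iff.1 h3) with hy' | hy'
    · exact ⟨y, stp_symm R s, hy'⟩
    · obtain ⟨k, t1, t2⟩ := ih hy'
      obtain ⟨l, s1, s2, _⟩ := peakV R H u y z k s t1 (by omega) (by omega)
      exact ⟨l, s1, by omega⟩

end peak

end Pool.Agent.H825Z.BTE
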