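import Pool.Agent.H825Z.BTE.Lev

set_option autoImplicit false
set_option linter.unusedSectionVars false
set_option linter.unusedVariables false

/-! # Shortening of paths with finitely many states -/

namespace Pool.Agent.H825Z.BTE

open Pool.Agent.Helper156.OF Pool.Agent.H910Z.TE Pool.Agent.H8Z.BTE

lemma shorten {P S : Type} (R : P → P → Prop) (st : P → S) (x : P) (F : Finset S)
    (rk : ℕ → P → Prop) (h0 : rk 0 x) (hmono : ∀ k y, rk k y → rk (k + 1) y)
    (hstep : ∀ k y z, rk k y → R y z → rk (k + 1) z) (hF : ∀ k y, rk k y → st y ∈ F)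
    (hc : ∀ a b a', R a b → st a = st a' → ∃ b', R a' b' ∧ st b = st b') (N : ℕ)
    (hN : F.card ≤ N) (y : P) (hy : Relation.ReflTransGen R x y) :
    ∃ y', rk N y' ∧ st y' = st y := by
  classical
  set T : ℕ → Finset S := fun k => F.filter (fun s => ∃ y, rk k y ∧ st y = s) with hT
  have hmono' : ∀ k l y, k ≤ l → rk k y → rk l y := by
    intro k l y hkl h
    induction hkl with
    | refl => exact h
    | step _ ih => exact hmono _ _ ih
  have hTm : ∀ k, T k ⊆ T (k + 1) := by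
    intro k s hs
    obtain ⟨h1, z, h2, h3⟩ := Finset.mem_filter.1 hs
    exact Finset.mem_filter.2 ⟨h1, z, hmono _ _ h2, h3⟩
  have hex : ∃ k, k ≤ F.card ∧ T (k + 1) ⊆ T k := by
    by_contra hcon
    have hcon' : ∀ k, k ≤ F.card → ¬ T (k + 1) ⊆ T k := fun k hk h => hcon ⟨k, hk, h⟩
    have h1 : ∀ k, k ≤ F.card + 1 → k ≤ (T k).card := by
      intro k hk
      induction k with
      | zero => omega
      | succ k ih =>
        have h1 := ih (by omega)
        have h2 : T k ⊂ T (k + 1) := ⟨hTm k, hcon' k (by omega)⟩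
        have := Finset.card_lt_card h2
        omega
    have h2 := h1 (F.card + 1) le_rfl
    have h3 : (T (F.card + 1)).card ≤ F.card := Finset.card_filter_le _ _
    omega
  obtain ⟨k, hk, hs⟩ := hex
  have key : ∃ y', rk k y' ∧ st y' = st y := by
    induction hy with
    | refl => exact ⟨x, hmono' 0 k x (Nat.zero_le _) h0, rfl⟩
    | tail _ r ih =>
      obtain ⟨y', h1, h2⟩ := ih
      obtain ⟨b', r', e⟩ := hc _ _ y' r h2.symm
      have h3 := hstep k y' b' h1 r'
      have h4 : st b' ∈ T (k + 1) := Finset.mem_filter.2 ⟨hF _ _ h3, b', h3, rfl⟩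
      obtain ⟨_, z, h5, h6⟩ := Finset.mem_filter.1 (hs h4)
      exact ⟨z, h5, h6.trans e.symm⟩
  obtain ⟨y', h1, h2⟩ := key
  exact ⟨y', hmono' k N y' (by omega) h1, h2⟩

variable {α : Type} [DecidableEq α] [Fintype α] [Nonempty α]

lemma lp_pow_succ {k : ℕ} {θ : MulAut (FreeGroup α)} (h : Lp (5 ^ k) θ ∧ Lp (5 ^ k) θ⁻¹) :
    Lp (5 ^ (k + 1)) θ ∧ Lp (5 ^ (k + 1)) θ⁻¹ :=
  ⟨lp_mono h.1 (Nat.pow_le_pow_right (by omega) (by omega)),
    lp_mono h.2 (Nat.pow_le_pow_right (by omega) (by omega))⟩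

lemma lp_pow_step {k : ℕ} {a b : MulAut (FreeGroup α)} (s : St a b)
    (h : Lp (5 ^ k) a ∧ Lp (5 ^ k) a⁻¹) : Lp (5 ^ (k + 1)) b ∧ Lp (5 ^ (k + 1)) b⁻¹ := by
  have := st_lp2 s h
  rwa [← pow_succ'] at this

lemma lp_pow_zero : Lp (5 ^ 0) (1 : MulAut (FreeGroup α)) ∧ Lp (5 ^ 0) (1 : MulAut (FreeGroup α))⁻¹ := by
  rw [inv_one, pow_zero]
  exact ⟨lp_one, lp_one⟩

lemma st_move {a b : MulAut (FreeGroup α)} (s : St a b) (a' : MulAut (FreeGroup α)) :
    St a' (b * a⁻¹ * a') := by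
  have := st_mul s (a⁻¹ * a')
  rwa [mul_inv_cancel_left, ← mul_assoc] at this

lemma move_apply (a b a' : MulAut (FreeGroup α)) (g : FreeGroup α) (h : a g = a' g) :
    (b * a⁻¹ * a') g = b g := by
  rw [MulAut.mul_apply, MulAut.mul_apply, ← h]
  simp

/-- the action on the characters modulo six -/
def chs (θ : MulAut (FreeGroup α)) :
    (α → Multiplicative (ZMod 6)) → (α → Multiplicative (ZMod 6)) :=
  fun c i => FreeGroup.lift c (θ (FreeGroup.of i))

lemma chs_iff (a b : MulAut (FreeGroup α)) : chs a = chs b ↔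
    ∀ (χ : FreeGroup α →* Multiplicative (ZMod 6)) (g : FreeGroup α), χ (a g) = χ (b g) := by
  constructor
  · intro h χ g
    have h1 : χ.comp a.toMonoidHom = χ.comp b.toMonoidHom := by
      ext i
      have h2 := congrFun (congrFun h (fun j => χ (FreeGroup.of j))) i
      have h3 : FreeGroup.lift (fun j => χ (FreeGroup.of j)) = χ := by
        ext j
        simp
      unfold chs at h2
      rw [h3] at h2
      exact congrArg _ h2
    exact DFunLike.congr_fun h1 g
  · intro h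
    funext c i
    exact h _ _

lemma periodic_of_bdd (u v : FreeGroup α) (h : Bdd u v) (a : MulAut (FreeGroup α))
    (ha : a v = v) : ∃ k, 0 < k ∧ IsConj ((a ^ k) u) u := by
  obtain ⟨M, hM⟩ := h
  have h1 : ∀ k : ℕ, (a ^ k) v = v := by
    intro k
    induction k with
    | zero => simp
    | succ k ih => rw [pow_succ, MulAut.mul_apply, ha, ih]
  have h2 : ∀ k : ℕ, FreeGroup.reduceCyclically ((a ^ k) u).toWord ∈
      {l : List (α × Bool) | l.length ≤ M.toNat} := by
    intro k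
    have := hM (a ^ k) (by rw [h1])
    rw [tau_eq_len] at this
    show (FreeGroup.reduceCyclically ((a ^ k) u).toWord).length ≤ M.toNat
    omega
  obtain ⟨k, l, hkl, e⟩ := Set.Finite.exists_lt_map_eq_of_forall_mem h2
    (List.finite_length_le (α × Bool) M.toNat)
  have h3 : ∀ g : FreeGroup α, IsConj (FreeGroup.mk (FreeGroup.reduceCyclically g.toWord)) g := by
    intro g
    have h1 := FreeGroup.reduceCyclically.conj_conjugator_reduceCyclically g.toWord
    refine isConj_iff.2 ⟨FreeGroup.mk (FreeGroup.reduceCyclically.conjugator g.toWord), ?_⟩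
    rw [FreeGroup.inv_mk, ← mk_append', ← mk_append', h1, FreeGroup.mk_toWord]
  have h4 : IsConj ((a ^ l) u) ((a ^ k) u) := by
    refine (h3 _).symm.trans ?_
    rw [← e]
    exact h3 _
  obtain ⟨d, rfl⟩ := Nat.exists_eq_add_of_lt hkl
  refine ⟨d + 1, by omega, ?_⟩
  have h5 := ((a ^ k)⁻¹ : MulAut (FreeGroup α)).toMonoidHom.map_isConj h4
  have e1 : ((a ^ k)⁻¹ : MulAut (FreeGroup α)).toMonoidHom ((a ^ (k + d + 1)) u) =
      (a ^ (d + 1)) u := by
    show ((a ^ k)⁻¹ * a ^ (k + d + 1)) u = _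
    rw [add_assoc, pow_add a k, inv_mul_cancel_left]
  have e2 : ((a ^ k)⁻¹ : MulAut (FreeGroup α)).toMonoidHom ((a ^ k) u) = u := by
    show ((a ^ k)⁻¹ * a ^ k) u = _
    rw [inv_mul_cancel, MulAut.one_apply]
  rwa [e1, e2] at h5

theorem bound_of_bdd (hAP : APs α) (u v : FreeGroup α) (h : Bdd u v) (B : Finset (FreeGroup α))
    (hB : ∀ g : FreeGroup α, g.norm ≤ v.norm → g ∈ B) (N : ℕ)
    (hN : B.card * (6 ^ Fintype.card α) ^ (6 ^ Fintype.card α) ≤ N) (θ : MulAut (FreeGroup α))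
    (hθ : (θ v).norm ≤ v.norm) : tau (θ u) ≤ (5 ^ N * u.norm : ℕ) := by
  obtain ⟨θ', ⟨h1, h2, h3⟩, e⟩ := shorten (Sl v (v.norm + 1)) (fun θ => (θ v, chs θ)) 1
    (B ×ˢ Finset.univ) (fun k θ => (θ v).norm ≤ v.norm ∧ Lp (5 ^ k) θ ∧ Lp (5 ^ k) θ⁻¹)
    ⟨le_rfl, lp_pow_zero⟩ (fun k y hy => ⟨hy.1, lp_pow_succ hy.2⟩)
    (fun k y z hy r => ⟨Nat.lt_succ_iff.1 r.2.2, lp_pow_step r.1 hy.2⟩)
    (fun k y hy => Finset.mem_product.2 ⟨hB _ hy.1, Finset.mem_univ _⟩)
    (by
      intro a b a' r e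
      have e1 : a v = a' v := congrArg Prod.fst e
      have e2 : chs a = chs a' := congrArg Prod.snd e
      have e3 := move_apply a b a' v e1
      refine ⟨b * a⁻¹ * a', ⟨st_move r.1 a', e1 ▸ r.2.1, e3 ▸ r.2.2⟩, Prod.ext e3.symm ?_⟩
      refine (chs_iff _ _).2 fun χ g => ?_
      have := (chs_iff _ _).1 e2 (χ.comp (b * a⁻¹).toMonoidHom) g
      refine Eq.trans ?_ this
      show χ (b g) = χ ((b * a⁻¹ * a) g)
      rw [inv_mul_cancel_right])
    N (by
      rw [Finset.card_product, Finset.card_univ, Fintype.card_fun, Fintype.card_fun,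
        Fintype.card_multiplicative, ZMod.card]
      exact hN)
    θ (conn_level v _ θ (by omega) (by omega))
  have e1 : θ' v = θ v := congrArg Prod.fst e
  have e2 : chs θ' = chs θ := congrArg Prod.snd e
  have h4 : (θ'⁻¹ * θ) v = v := by
    rw [MulAut.mul_apply, ← e1]
    simp
  obtain ⟨k, hk, hc⟩ := periodic_of_bdd u v h _ h4
  have h5 := hAP (θ'⁻¹ * θ) (fun χ g => by
    have := (chs_iff _ _).1 e2 (χ.comp (θ'⁻¹).toMonoidHom) g
    refine this.symm.trans ?_
    show χ ((θ'⁻¹ * θ') g) = χ g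
    rw [inv_mul_cancel, MulAut.one_apply]) u k hk hc θ'
  rw [← MulAut.mul_apply, mul_inv_cancel_left] at h5
  rw [h5]
  refine (tau_le_norm _).trans ?_
  exact_mod_cast h2 u

theorem bdd_of_ball (u v : FreeGroup α) (M : ℕ) (B C : Finset (FreeGroup α))
    (hB : ∀ g : FreeGroup α, g.norm ≤ v.norm → g ∈ B) (hC : ∀ g : FreeGroup α, g.norm ≤ M → g ∈ C)
    (N : ℕ) (hN : B.card * C.card ≤ N)
    (h : ∀ θ : MulAut (FreeGroup α), Lp (5 ^ (N + 1)) θ → Lp (5 ^ (N + 1)) θ⁻¹ →
      (θ v).norm ≤ v.norm → tau (θ u) ≤ M) : Bdd u v := by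
  classical
  have h0 : tau u ≤ M := by
    have := h 1 (lp_mono lp_one (Nat.one_le_pow _ _ (by omega)))
      (by rw [inv_one]; exact lp_mono lp_one (Nat.one_le_pow _ _ (by omega))) le_rfl
    simpa using this
  have hmv : ∀ a b a' : MulAut (FreeGroup α), ConjClasses.mk (a u) = ConjClasses.mk (a' u) →
      IsConj (b u) ((b * a⁻¹ * a') u) := by
    intro a b a' e
    have h1 := (b * a⁻¹).toMonoidHom.map_isConj (ConjClasses.mk_eq_mk_iff_isConj.1 e)
    have e1 : (b * a⁻¹).toMonoidHom (a u) = b u := by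
      show (b * a⁻¹ * a) u = _
      rw [inv_mul_cancel_right]
    rw [e1] at h1
    exact h1
  have key : ∀ θ, Relation.ReflTransGen (Sl v (v.norm + 1)) 1 θ → tau (θ u) ≤ M ∧
      Relation.ReflTransGen (fun a b => Sl v (v.norm + 1) a b ∧ tau (a u) ≤ M ∧ tau (b u) ≤ M)
        1 θ := by
    intro θ hθ
    induction hθ with
    | refl => exact ⟨h0, Relation.ReflTransGen.refl⟩
    | @tail y z _ r ih =>
      obtain ⟨y', ⟨h1, h2, h3⟩, e⟩ := shorten
        (fun a b => Sl v (v.norm + 1) a b ∧ tau (a u) ≤ M ∧ tau (b u) ≤ M)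
        (fun θ => (θ v, ConjClasses.mk (θ u))) 1 (B ×ˢ C.image ConjClasses.mk)
        (fun k θ => (θ v).norm ≤ v.norm ∧ tau (θ u) ≤ M ∧ Lp (5 ^ k) θ ∧ Lp (5 ^ k) θ⁻¹)
        ⟨le_rfl, h0, lp_pow_zero⟩ (fun k y hy => ⟨hy.1, hy.2.1, lp_pow_succ hy.2.2⟩)
        (fun k y z hy r => ⟨Nat.lt_succ_iff.1 r.1.2.2, r.2.2, lp_pow_step r.1.1 hy.2.2⟩)
        (by
          intro k y hy
          refine Finset.mem_product.2 ⟨hB _ hy.1, ?_⟩
          obtain ⟨t, c, e, hc⟩ := exists_cyc (y u)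
          refine Finset.mem_image.2 ⟨c, hC c (by have := hy.2.1; omega), ?_⟩
          exact ConjClasses.mk_eq_mk_iff_isConj.2 (isConj_iff.2 ⟨t, e.symm⟩))
        (by
          intro a b a' r e
          have e1 : a v = a' v := congrArg Prod.fst e
          have e2 : ConjClasses.mk (a u) = ConjClasses.mk (a' u) := congrArg Prod.snd e
          have e3 := move_apply a b a' v e1
          have e4 := hmv a b a' e2
          refine ⟨b * a⁻¹ * a', ⟨⟨st_move r.1.1 a', e1 ▸ r.1.2.1, e3 ▸ r.1.2.2⟩, ?_, ?_⟩,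
            Prod.ext e3.symm (ConjClasses.mk_eq_mk_iff_isConj.2 e4)⟩
          · rw [← tau_isConj (ConjClasses.mk_eq_mk_iff_isConj.1 e2)]
            exact r.2.1
          · rw [← tau_isConj e4]
            exact r.2.2)
        N (by
          rw [Finset.card_product]
          exact (Nat.mul_le_mul_left _ Finset.card_image_le).trans hN)
        y ih.2
      have e1 : y' v = y v := congrArg Prod.fst e
      have e2 : ConjClasses.mk (y' u) = ConjClasses.mk (y u) := congrArg Prod.snd e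
      have e3 := move_apply y z y' v e1.symm
      have e4 := hmv y z y' e2.symm
      have h5 := lp_pow_step (st_move r.1 y') h3
      have h6 := h _ h5.1 h5.2 (by rw [e3]; exact Nat.lt_succ_iff.1 r.2.2)
      rw [← tau_isConj e4] at h6
      exact ⟨h6, ih.2.tail ⟨r, ih.1, h6⟩⟩
  exact ⟨M, fun θ hθ => (key θ (conn_level v _ θ (by omega) (by omega))).1⟩

end Pool.Agent.H825Z.BTE
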